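import Pool.Agent.H53.GX.Targets

/-!
# The labels of a configuration (no precolouring)
-/

set_option autoImplicit false

namespace Pool.Agent.H41.GX

open Pool.Agent.H68.BP Pool.Agent.H58.SF Pool.Agent.H53.GM Pool.Agent.H53.GX
open Classical

theorem lbx_vr {k L : ℕ} (lb : Fin k → Rg L) (e : Finset (Fin k)) : vr (pts lb e) = e := by
  ext v
  constructor
  · intro h
    obtain ⟨x, hx, rfl⟩ := Finset.mem_image.1 h
    obtain ⟨w, hw, rfl⟩ := Finset.mem_image.1 hx
    exact hw
  · intro h
    exact Finset.mem_image.2 ⟨(v, lb v), Finset.mem_image.2 ⟨v, h, rfl⟩, rfl⟩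

theorem lbx_cast {k L : ℕ} (lb : Fin k → Rg L) (v : Fin k) :
    lbx lb (Fin.castAdd k v) = lb v := by
  unfold lbx
  exact Fin.addCases_left v

theorem pf_LBX : Pool.Agent.H53.GX.T_LBX := by
  intro τ N k L F I a₀ q hp e he c
  rcases e.eq_empty_or_nonempty with h0 | h0
  · subst h0
    have hps : ps (∅ : Finset (Fin k)) = ∅ := rfl
    have h1 : pts (lbx q.2.2.1) ∅ = ∅ := rfl
    have h2 : ¬ hasS (pts (lbx q.2.2.1) ∅) := by
      rintro ⟨v, hv⟩
      rw [h1] at hv
      exact absurd hv (Finset.notMem_empty _)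
    have h3 : kdx I a₀ q ∅ = (fun _ => a₀, fun _ => a₀) := by
      unfold kdx kd rsG
      rw [hps, if_pos h1]
    unfold labK
    rw [hps, if_neg h2, h3, Finset.empty_union]
    exact (hp.rl c).2.symm
  · have h1 : pts (lbx q.2.2.1) (ps e) ≠ ∅ := by
      obtain ⟨v, hv⟩ := h0
      intro h
      have : (Fin.castAdd k v, lbx q.2.2.1 (Fin.castAdd k v)) ∈ pts (lbx q.2.2.1) (ps e) :=
        Finset.mem_image.2 ⟨Fin.castAdd k v, Finset.mem_image.2 ⟨v, hv, rfl⟩, rfl⟩
      rw [h] at this
      exact absurd this (Finset.notMem_empty _)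
    have h2 := lbx_vr (lbx q.2.2.1) (ps e)
    by_cases hS : hasS (pts (lbx q.2.2.1) (ps e))
    · obtain ⟨v, hv⟩ := id hS
      obtain ⟨w', hw, hw'⟩ := Finset.mem_image.1 hv
      obtain ⟨w, hwe, rfl⟩ := Finset.mem_image.1 hw
      have hwl : q.2.2.1 w = some none := by
        have h9 := (Prod.mk.inj hw').2
        rwa [lbx_cast] at h9
      have hZ : ¬ AZ (pts (lbx q.2.2.1) (ps e)) := by
        intro h
        have h5 := h.2 _ hv
        simp at h5
      have hwI : w ∉ q.1 := fun h => (Finset.disjoint_left.1 he) hwe h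
      have h6 : ∀ d, (kdx I a₀ q e).2 d = rse (ps e ∪ cst I) (q.2.2.2 (ix q.2.1 d)) := by
        intro d
        unfold kdx kd rsG
        rw [if_neg h1]
        change (if AZ (pts (lbx q.2.2.1) (ps e)) then fun _ => ∅ else
          fun d => rse (vr (pts (lbx q.2.2.1) (ps e)) ∪ cst I) (q.2.2.2 (ix q.2.1 d)) :
          Fin 2 → Ty τ N (Fin (k + k))) d = _
        rw [if_neg hZ, h2]
      unfold labK
      rw [if_pos hS, h6, h6]
      rcases hp.bin with h | ⟨P, P', h⟩
      · rw [h w hwI] at hwl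
        exact absurd hwl (by simp)
      · rw [h, (pat_ix q.2.1 P P').1, (pat_ix q.2.1 P P').2]
        exact (pat_map (fun t => rse (ps e ∪ cst I) t) q.2.1 P P' c).symm
    · have hA : ¬ AS (pts (lbx q.2.2.1) (ps e)) := by
        intro h
        obtain ⟨x, hx⟩ := h.1
        exact hS ⟨x.1, by
          have := h.2 x hx
          rw [← this]
          exact hx⟩
      unfold labK
      rw [if_neg hS]
      unfold kdx kd rsG
      rw [if_neg h1]
      change (if AS (pts (lbx q.2.2.1) (ps e)) then fun _ => ∅ else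
        fun c => rse (vr (pts (lbx q.2.2.1) (ps e)) ∪ cst I) (q.2.2.2 c) :
          Fin 6 → Ty τ N (Fin (k + k))) c = _
      rw [if_neg hA, h2]

end Pool.Agent.H41.GX
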